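import Pool.Agent.Helper2.AR.Coh

/-!
# Incompatible Aronszajn lines from a nowhere rigid Suslin tree
-/

open Set Helper2.AR

namespace Pool.Agent.Results.MP_713299_lc.NowhereRigidSuslin

/-- There are Aronszajn lines `L` and `M`, neither containing a Suslin line, which are not
compatible; moreover `M` is a Countryman line and `L` contains no Countryman line. -/
def IncompatibleLines : Prop :=
  ∃ (L M : Type) (_ : LinearOrder L) (_ : LinearOrder M),
    IsAronszajnLine L ∧ ¬ ContainsSuslin L ∧ (∀ X : Set L, ¬ IsCountryman X) ∧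
    IsAronszajnLine M ∧ ¬ ContainsSuslin M ∧ IsCountryman M ∧
    ¬ Compatible L M

/-- (1) A nowhere rigid Suslin tree gives incompatible Aronszajn lines without Suslin suborders.
(2) In particular every coherent Suslin tree does. -/
theorem result :
    (∀ (T : Type) [PartialOrder T], IsSuslinTree T → (∀ t : T, ¬ (Ici t).Countable) →
      NowhereRigid T → IncompatibleLines) ∧
    (∀ (E : Type) [Nontrivial E] (S : Set (CSeq E)), IsUniform S → IsSuslinTree S →
      (∀ s ∈ S, ∀ t ∈ S, (s.diff t).Finite) → IncompatibleLines) :=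
  ⟨fun T _ h1 h2 h3 => lines_of_nowhereRigid T h1 h2 h3,
    fun _ _ _ h1 h2 h3 => lines_of_coherent h1 h2 h3⟩

end Pool.Agent.Results.MP_713299_lc.NowhereRigidSuslin
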